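import Pool.Agent.Helper68.DS.Goals2

/-!
# Packet PART: partition lemma for two supermodular functions
-/

namespace Pool.Agent.Helper31.DS

open Pool.Agent.Helper68.DS

theorem PART : PART_stmt := by
  intro α _ E
  induction E using Finset.induction_on with
  | empty =>
    intro w b _ _ h
    have := h ∅ (Finset.Subset.refl _)
    rw [Finset.card_empty] at this
    refine ⟨∅, Finset.Subset.refl _, ?_, ?_⟩
    · rw [Finset.sdiff_empty]; omega
    · omega
  | insert e E he ih =>
    intro w b hw hb hc
    have hins : ∀ A, A ⊆ E → insert e A ⊆ insert e E := fun A hA => Finset.insert_subset_insert e hA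
    have hsub : ∀ A, A ⊆ E → A ⊆ insert e E := fun A hA => hA.trans (Finset.subset_insert _ _)
    have heA : ∀ A, A ⊆ E → e ∉ A := fun A hA h => he (hA h)
    have hU : ∀ A B : Finset α, insert e A ∪ insert e B = insert e (A ∪ B) := by
      intro A B; ext x; simp only [Finset.mem_union, Finset.mem_insert]; tauto
    have hI : ∀ A B : Finset α, insert e A ∩ insert e B = insert e (A ∩ B) := by
      intro A B; ext x; simp only [Finset.mem_inter, Finset.mem_insert]; tauto
    by_cases h1 : ∀ A, A ⊆ E → w A + b (insert e A) ≤ A.card
    · obtain ⟨Z, hZ, hZ1, hZ2⟩ := ih w (fun A => b (insert e A))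
        (fun A B hA hB => hw A B (hsub A hA) (hsub B hB))
        (fun A B hA hB => by
          have := hb (insert e A) (insert e B) (hins A hA) (hins B hB)
          rw [hU, hI] at this
          exact this) h1
      refine ⟨insert e Z, hins Z hZ, ?_, hZ2⟩
      have : insert e E \ insert e Z = E \ Z := by
        ext x
        simp only [Finset.mem_sdiff, Finset.mem_insert, not_or]
        constructor
        · rintro ⟨rfl | hx, h2, h3⟩
          · exact absurd rfl h2
          · exact ⟨hx, h3⟩
        · rintro ⟨hx, h3⟩
          exact ⟨Or.inr hx, fun h => he (h ▸ hx), h3⟩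
      rw [this]; exact hZ1
    · by_cases h2 : ∀ A, A ⊆ E → w (insert e A) + b A ≤ A.card
      · obtain ⟨Z, hZ, hZ1, hZ2⟩ := ih (fun A => w (insert e A)) b
          (fun A B hA hB => by
            have := hw (insert e A) (insert e B) (hins A hA) (hins B hB)
            rw [hU, hI] at this
            exact this)
          (fun A B hA hB => hb A B (hsub A hA) (hsub B hB)) h2
        refine ⟨Z, hsub Z hZ, ?_, hZ2⟩
        have : insert e E \ Z = insert e (E \ Z) := by
          ext x
          simp only [Finset.mem_sdiff, Finset.mem_insert]
          constructor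
          · rintro ⟨rfl | hx, h3⟩
            · exact Or.inl rfl
            · exact Or.inr ⟨hx, h3⟩
          · rintro (rfl | ⟨hx, h3⟩)
            · exact ⟨Or.inl rfl, heA Z hZ⟩
            · exact ⟨Or.inr hx, h3⟩
        rw [this]; exact hZ1
      · push Not at h1 h2
        obtain ⟨A, hA, hA1⟩ := h1
        obtain ⟨B, hB, hB1⟩ := h2
        exfalso
        have g1 := hw A (insert e B) (hsub A hA) (hins B hB)
        have g2 := hb (insert e A) B (hins A hA) (hsub B hB)
        have u1 : A ∪ insert e B = insert e (A ∪ B) := by
          ext x; simp only [Finset.mem_union, Finset.mem_insert]; tauto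
        have u2 : insert e A ∪ B = insert e (A ∪ B) := by
          ext x; simp only [Finset.mem_union, Finset.mem_insert]; tauto
        have i1 : A ∩ insert e B = A ∩ B := by
          rw [Finset.inter_insert_of_notMem (heA A hA)]
        have i2 : insert e A ∩ B = A ∩ B := by
          rw [Finset.insert_inter_of_notMem (heA B hB)]
        rw [u1, i1] at g1
        rw [u2, i2] at g2
        have hAB : A ∪ B ⊆ E := Finset.union_subset hA hB
        have c1 := hc (insert e (A ∪ B)) (hins _ hAB)
        have c2 := hc (A ∩ B) (hsub _ (Finset.inter_subset_left.trans hA))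
        rw [Finset.card_insert_of_notMem (heA _ hAB)] at c1
        have c3 := Finset.card_union_add_card_inter A B
        omega

end Pool.Agent.Helper31.DS
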